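import Pool.Agent.Y951.TU.Main

/-! Project KO (helper586), part SM (helper507): box counts from exponential sums. -/

set_option autoImplicit false

namespace Pool.Agent.N507.KO

open Finset MeasureTheory
open Pool.Agent.Y933.KD (e ind measurable_ind Leb)
open Pool.Agent.Y951.TU

theorem int_ind_Leb {u v : ℝ} (hu : 0 ≤ u) (huv : u ≤ v) (hv : v ≤ 1) :
    ∫ t, ind u v t ∂Leb = v - u := by
  have h1 : ∫ t, ind u v t ∂Leb = ∫ t, (Set.Ico u v).indicator (fun _ => (1 : ℝ)) t ∂Leb := by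
    unfold Leb
    refine integral_congr_ae ?_
    filter_upwards [ae_restrict_mem measurableSet_Ico] with t ht
    have hf : Int.fract t = t := Int.fract_eq_self.2 ht
    unfold ind
    rw [hf]
    by_cases h : u ≤ t ∧ t < v
    · rw [if_pos h, Set.indicator_of_mem (show t ∈ Set.Ico u v from h)]
    · rw [if_neg h, Set.indicator_of_notMem (show t ∉ Set.Ico u v from h)]
  rw [h1, integral_indicator measurableSet_Ico]
  unfold Leb
  rw [Measure.restrict_restrict measurableSet_Ico]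
  have h2 : Set.Ico u v ∩ Set.Ico 0 1 = Set.Ico u v := by
    rw [Set.Ico_inter_Ico]
    rw [max_eq_left hu, min_eq_left hv]
  rw [h2]
  simp [huv]

theorem int_Cube {w : ℕ} {u v : Fin w → ℝ} (hu : ∀ i, 0 ≤ u i) (huv : ∀ i, u i ≤ v i)
    (hv : ∀ i, v i ≤ 1) :
    ∫ x, ∏ i, ind (u i) (v i) (lin w (Pi.single i 1) x) ∂(Cube w) = ∏ i, (v i - u i) := by
  have h1 : ∀ (x : Fin w → ℝ) (i : Fin w), lin w (Pi.single i 1) x = x i := by
    intro x i
    rw [lin_apply, sum_eq_single i]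
    · rw [Pi.single_eq_same, Int.cast_one, one_mul]
    · intro j _ hj
      rw [Pi.single_eq_of_ne hj, Int.cast_zero, zero_mul]
    · intro h
      exact absurd (mem_univ i) h
  simp only [h1]
  unfold Cube
  rw [integral_fintype_prod_eq_prod (fun i (t : ℝ) => ind (u i) (v i) t)]
  exact prod_congr rfl fun i _ => int_ind_Leb (hu i) (huv i) (hv i)

/-- box counts from exponential sums -/
theorem box (w : ℕ) (ε : ℝ) (hε : 0 < ε) : ∃ (K : ℕ) (D : ℝ), 0 < D ∧ ∀ (s : Finset ℕ)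
    (y : ℕ → ℝ), s.Nonempty → (∀ h : Fin w → ℤ, (∀ j, |h j| ≤ K) → h ≠ 0 →
      ‖∑ n ∈ s, e (∑ j : Fin w, (h j : ℝ) * y (n + j))‖ ≤ D * s.card) →
    ∀ u v : Fin w → ℝ, (∀ j, 0 ≤ u j) → (∀ j, u j ≤ v j) → (∀ j, v j ≤ 1) →
      |((s.filter (fun n => ∀ j : Fin w, u j ≤ Int.fract (y (n + j)) ∧
        Int.fract (y (n + j)) < v j)).card : ℝ) - s.card * ∏ j, (v j - u j)| ≤ ε * s.card := by
  classical
  obtain ⟨K0, hK0, hK0'⟩ : ∃ K0 : ℕ, 0 < K0 ∧ (w : ℝ) * (12 / K0) ≤ ε / 2 := by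
    refine ⟨⌈24 * w / ε⌉₊ + 1, Nat.succ_pos _, ?_⟩
    have h1 : 24 * w / ε ≤ (⌈24 * w / ε⌉₊ : ℝ) := Nat.le_ceil _
    rw [mul_div_assoc', div_le_iff₀ (by positivity)]
    rw [div_le_iff₀ hε] at h1
    push_cast
    nlinarith
  have hKR : (0 : ℝ) < K0 := by exact_mod_cast hK0
  obtain ⟨A, hA⟩ : ∃ A : ℝ, A = (2 * (K0 : ℝ) ^ 3 + 1) ^ w + w * 5 := ⟨_, rfl⟩
  have hA0 : 0 < A := by rw [hA]; positivity
  refine ⟨K0 ^ 3, ε / 2 / A, by positivity, ?_⟩
  intro s y hs hS u v hu huv hv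
  have hsc : (0 : ℝ) < s.card := by exact_mod_cast Finset.card_pos.2 hs
  obtain ⟨Δ, hΔdef⟩ : ∃ Δ : ℝ, Δ = ε / 2 / A := ⟨_, rfl⟩
  have hΔ0 : 0 ≤ Δ := by rw [hΔdef]; positivity
  obtain ⟨x, hx⟩ : ∃ x : ℕ → Fin w → ℝ, x = fun n (j : Fin w) => y (n + (j : ℕ)) := ⟨_, rfl⟩
  haveI := unif_prob hs x
  have hq : ∀ i : Fin w, ∀ h : ℤ, h ≠ 0 → h • (Pi.single i 1 : Fin w → ℤ) ≠ 0 := by
    intro i h hh h0
    have h1 := congrFun h0 i
    rw [Pi.smul_apply, Pi.single_eq_same, Pi.zero_apply, smul_eq_mul, mul_one] at h1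
    exact hh h1
  have hsum : ∀ h : Fin w → ℤ, ∑ i, h i • (Pi.single i 1 : Fin w → ℤ) = h := by
    intro h
    funext j
    rw [Finset.sum_apply, sum_eq_single j]
    · rw [Pi.smul_apply, Pi.single_eq_same, smul_eq_mul, mul_one]
    · intro i _ hi
      rw [Pi.smul_apply, Pi.single_eq_of_ne (Ne.symm hi), smul_zero]
    · intro hj
      exact absurd (mem_univ j) hj
  have hΔ : ∀ h : Fin w → ℤ, (∀ i, |h i| ≤ (K0 : ℤ) ^ 3) →
      ∑ i, h i • (Pi.single i 1 : Fin w → ℤ) ≠ 0 →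
      ‖hat (lin w) (unif s x) (∑ i, h i • (Pi.single i 1 : Fin w → ℤ))‖ ≤ Δ := by
    intro h hh hne
    rw [hsum] at hne ⊢
    unfold hat
    rw [integral_unif, norm_mul]
    have h1 : ‖(1 / (s.card : ℂ))‖ = 1 / s.card := by simp
    rw [h1, one_div_mul_eq_div, div_le_iff₀ hsc, hΔdef]
    have h2 := hS h (fun j => by have := hh j; push_cast; exact this) hne
    refine le_trans (le_of_eq ?_) h2
    congr 1
    refine sum_congr rfl fun n _ => ?_
    rw [lin_apply, hx]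
  have key := test hK0 measurable_lin (unif s x) (Cube w) hat_Cube
    (fun i => (Pi.single i 1 : Fin w → ℤ)) hq Δ hΔ hΔ0 u v hu hv
  rw [int_Cube hu huv hv, integral_ind measurable_lin] at key
  have h3 := real_unif s x (measurableSet_Ev measurable_lin
    (fun i => (Pi.single i 1 : Fin w → ℤ)) u v)
  rw [h3] at key
  have h4 : s.filter (fun m => x m ∈ Ev (lin w) (fun i => (Pi.single i 1 : Fin w → ℤ)) u v) =
      s.filter (fun n => ∀ j : Fin w, u j ≤ Int.fract (y (n + j)) ∧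
        Int.fract (y (n + j)) < v j) := by
    refine filter_congr fun n _ => ?_
    have h5 : ∀ (i : Fin w), lin w (Pi.single i 1) (x n) = y (n + i) := by
      intro i
      rw [lin_apply, sum_eq_single i]
      · rw [Pi.single_eq_same, Int.cast_one, one_mul, hx]
      · intro j _ hj
        rw [Pi.single_eq_of_ne hj, Int.cast_zero, zero_mul]
      · intro h
        exact absurd (mem_univ i) h
    unfold Ev
    show (∀ i, u i ≤ Int.fract (lin w (Pi.single i 1) (x n)) ∧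
      Int.fract (lin w (Pi.single i 1) (x n)) < v i) ↔ _
    simp only [h5]
  rw [h4] at key
  have h6 : (2 * (K0 : ℝ) ^ 3 + 1) ^ w * Δ + w * (12 / K0 + 5 * Δ) ≤ ε := by
    have h7 : (2 * (K0 : ℝ) ^ 3 + 1) ^ w * Δ + w * (12 / K0 + 5 * Δ) =
        A * Δ + w * (12 / K0) := by rw [hA]; ring
    rw [h7, hΔdef, mul_div_cancel₀ _ hA0.ne']
    linarith
  have h8 := key.trans h6
  have h9 : ∀ c V : ℝ, c - s.card * V = (c / s.card - V) * s.card := by
    intro c V
    field_simp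
  rw [h9, abs_mul, abs_of_pos hsc]
  exact mul_le_mul_of_nonneg_right h8 hsc.le

end Pool.Agent.N507.KO
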