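import Mathlib

/-! Project KO (helper586), part SM (helper507): interpolation between the scales. -/

set_option autoImplicit false

namespace Pool.Agent.N507.KO

open Finset

/-- counting function between two scales -/
theorem interp {P : ℕ → Prop} [DecidablePred P] {V δ ε : ℝ} (hV0 : 0 ≤ V) (hV1 : V ≤ 1)
    (hδ : 0 < δ) (hδ1 : δ ≤ 1) (hδε : 8 * δ ≤ ε) {n0 N1 m : ℕ} {t : ℕ → ℕ} (hn0 : 1 ≤ n0)
    (ht : ∀ i ≤ m, 2 * n0 ≤ t i)
    (hsc : ∀ N : ℕ, 2 * n0 ≤ N → N ≤ N1 → ∃ i ≤ m, ∃ j ≤ m, t i ≤ N ∧ N ≤ t j ∧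
        (t j : ℝ) ≤ (1 + δ) * t i + 1)
    (hg : ∀ i ≤ m, |(((Ico n0 (t i)).filter P).card : ℝ) - ((Ico n0 (t i)).card : ℝ) * V| ≤
      δ * (Ico n0 (t i)).card) (N : ℕ) (hN : N ≤ N1) :
    |(((range N).filter P).card : ℝ) - N * V| ≤ ε * N + 2 * n0 := by
  have hNR : (0 : ℝ) ≤ N := Nat.cast_nonneg _
  have hn0R : (1 : ℝ) ≤ n0 := by exact_mod_cast hn0
  have hε : 0 ≤ ε := by linarith
  rcases lt_or_ge N (2 * n0) with h1 | h1
  · have h2 : ((range N).filter P).card ≤ N := by
      have := card_filter_le (range N) P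
      rwa [card_range] at this
    have h2' : (((range N).filter P).card : ℝ) ≤ N := by exact_mod_cast h2
    have h3 : (0 : ℝ) ≤ ((range N).filter P).card := Nat.cast_nonneg _
    have h4 : (N : ℝ) ≤ 2 * n0 := by exact_mod_cast h1.le
    have h5 : 0 ≤ ε * N := mul_nonneg hε hNR
    have h6 : N * V ≤ N := mul_le_of_le_one_right hNR hV1
    have h7 : 0 ≤ N * V := mul_nonneg hNR hV0
    rw [abs_le]
    constructor <;> linarith
  · have hN1 : (1 : ℝ) ≤ N := by
      have : 1 ≤ N := by omega
      exact_mod_cast this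
    obtain ⟨i, hi, j, hj, h2, h3, h4⟩ := hsc N h1 hN
    have low : ∀ i ≤ m, (t i : ℝ) * V - n0 - δ * t i ≤ (((range (t i)).filter P).card : ℝ) ∧
        (((range (t i)).filter P).card : ℝ) ≤ n0 + t i * V + δ * t i := by
      intro i hi
      have g1 := hg i hi
      have g2 := ht i hi
      have g3 : ((Ico n0 (t i)).card : ℝ) = t i - n0 := by
        rw [Nat.card_Ico, Nat.cast_sub (by omega)]
      rw [g3, abs_le] at g1
      have g4 : (((Ico n0 (t i)).filter P).card : ℝ) ≤ (((range (t i)).filter P).card : ℝ) := by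
        refine Nat.cast_le.2 (card_le_card (filter_subset_filter _ ?_))
        intro x hx
        rw [mem_Ico] at hx
        exact mem_range.2 hx.2
      have g5 : (((range (t i)).filter P).card : ℝ) ≤
          n0 + (((Ico n0 (t i)).filter P).card : ℝ) := by
        have : ((range (t i)).filter P) ⊆ range n0 ∪ ((Ico n0 (t i)).filter P) := by
          intro x hx
          rw [mem_filter, mem_range] at hx
          rw [mem_union, mem_range, mem_filter, mem_Ico]
          by_cases hxn : x < n0
          · exact Or.inl hxn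
          · exact Or.inr ⟨⟨by omega, hx.1⟩, hx.2⟩
        have g6 := (card_le_card this).trans (card_union_le _ _)
        rw [card_range] at g6
        exact_mod_cast g6
      have g6 : (n0 : ℝ) * V ≤ n0 := mul_le_of_le_one_right (by linarith) hV1
      have g7 : 0 ≤ (n0 : ℝ) * V := mul_nonneg (by linarith) hV0
      have g8 : 0 ≤ δ * n0 := by positivity
      constructor
      · nlinarith
      · nlinarith
    have l1 := (low i hi).1
    have l2 := (low j hj).2
    have m1 : (((range (t i)).filter P).card : ℝ) ≤ (((range N).filter P).card : ℝ) :=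
      Nat.cast_le.2 (card_le_card (filter_subset_filter _ (range_mono h2)))
    have m2 : (((range N).filter P).card : ℝ) ≤ (((range (t j)).filter P).card : ℝ) :=
      Nat.cast_le.2 (card_le_card (filter_subset_filter _ (range_mono h3)))
    have h2R : (t i : ℝ) ≤ N := by exact_mod_cast h2
    have h3R : (N : ℝ) ≤ t j := by exact_mod_cast h3
    have e1 : (t j : ℝ) - N ≤ δ * N + 1 := by nlinarith
    have e2 : ((t j : ℝ) - N) * V ≤ δ * N + 1 :=
      (mul_le_of_le_one_right (by linarith) hV1).trans e1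
    have e3 : (N : ℝ) - t i ≤ δ * N + 1 := by nlinarith
    have e4 : ((N : ℝ) - t i) * V ≤ δ * N + 1 :=
      (mul_le_of_le_one_right (by linarith) hV1).trans e3
    have e5 : δ * t j ≤ 3 * δ * N := by
      have : (t j : ℝ) ≤ 3 * N := by nlinarith
      nlinarith
    have e6 : δ * t i ≤ δ * N := mul_le_mul_of_nonneg_left h2R hδ.le
    have e7 : 8 * δ * N ≤ ε * N := mul_le_mul_of_nonneg_right hδε hNR
    have e8 : 0 ≤ δ * N := by positivity
    rw [abs_le]
    constructor
    · nlinarith
    · nlinarith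

end Pool.Agent.N507.KO
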