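import Mathlib

/-! Project KO (helper586), part SM (helper507): geometric scales, second moments, Markov. -/

set_option autoImplicit false

namespace Pool.Agent.N507.KO

open Finset

/-- geometric scales -/
theorem scales (δ : ℝ) (hδ : 0 < δ) : ∃ C : ℝ, 0 ≤ C ∧ ∀ n0 N1 : ℕ, 1 ≤ n0 → 2 * n0 ≤ N1 →
    ∃ (m : ℕ) (t : ℕ → ℕ), (∀ i ≤ m, 2 * n0 ≤ t i ∧ t i ≤ N1) ∧
      ((m : ℝ) + 1 ≤ C * (1 + Real.log N1)) ∧
      (∑ i ∈ range (m + 1), 1 / (t i : ℝ) ≤ C / n0) ∧
      ∀ N : ℕ, 2 * n0 ≤ N → N ≤ N1 → ∃ i ≤ m, ∃ j ≤ m, t i ≤ N ∧ N ≤ t j ∧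
        (t j : ℝ) ≤ (1 + δ) * t i + 1 := by
  obtain ⟨lam, hlam⟩ : ∃ lam : ℝ, lam = 1 + δ := ⟨_, rfl⟩
  have hl1 : 1 < lam := by rw [hlam]; linarith
  have hl0 : 0 < lam := by linarith
  have hlog : 0 < Real.log lam := Real.log_pos hl1
  refine ⟨(2 + 1 / Real.log lam) + lam ^ 2 / (2 * δ), by positivity, ?_⟩
  intro n0 N1 hn0 hN1
  have hn0R : (1 : ℝ) ≤ n0 := by exact_mod_cast hn0
  have hN1R : (2 : ℝ) * n0 ≤ N1 := by exact_mod_cast hN1
  have hex : ∃ m : ℕ, (N1 : ℝ) ≤ 2 * n0 * lam ^ m := by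
    obtain ⟨m, hm⟩ := pow_unbounded_of_one_lt (N1 : ℝ) hl1
    refine ⟨m, hm.le.trans ?_⟩
    have : 0 < lam ^ m := by positivity
    nlinarith
  obtain ⟨m, hm, hmin⟩ : ∃ m : ℕ, (N1 : ℝ) ≤ 2 * n0 * lam ^ m ∧
      ∀ i < m, 2 * n0 * lam ^ i < N1 := by
    classical
    exact ⟨Nat.find hex, Nat.find_spec hex, fun i hi => not_le.1 (Nat.find_min hex hi)⟩
  refine ⟨m, fun i => min ⌈2 * n0 * lam ^ i⌉₊ N1, ?_, ?_, ?_, ?_⟩
  · intro i _
    refine ⟨le_min ?_ hN1, min_le_right _ _⟩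
    have h1 : (1 : ℝ) ≤ lam ^ i := one_le_pow₀ hl1.le
    have h2 : ((2 * n0 : ℕ) : ℝ) ≤ (⌈2 * n0 * lam ^ i⌉₊ : ℝ) := by
      refine le_trans ?_ (Nat.le_ceil _)
      push_cast
      nlinarith
    exact_mod_cast h2
  · have hlN : 0 ≤ Real.log N1 := Real.log_natCast_nonneg _
    have hextra : 0 ≤ lam ^ 2 / (2 * δ) * (1 + Real.log N1) := by positivity
    have key : (m : ℝ) + 1 ≤ (2 + 1 / Real.log lam) * (1 + Real.log N1) := by
      rcases Nat.eq_zero_or_pos m with h0 | h0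
      · rw [h0, Nat.cast_zero, zero_add]
        have h3 : 0 < 1 / Real.log lam := by positivity
        nlinarith
      · have h3 := hmin (m - 1) (by omega)
        have h4 : lam ^ (m - 1) ≤ N1 := by
          have : 0 < lam ^ (m - 1) := by positivity
          nlinarith
        have h5 := Real.log_le_log (by positivity) h4
        rw [Real.log_pow, Nat.cast_sub h0, Nat.cast_one] at h5
        have h6 : (m : ℝ) - 1 ≤ Real.log N1 * (1 / Real.log lam) := by
          rw [mul_one_div, le_div_iff₀ hlog]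
          exact h5
        have h7 : 0 < 1 / Real.log lam := by positivity
        nlinarith
    calc (m : ℝ) + 1 ≤ (2 + 1 / Real.log lam) * (1 + Real.log N1) := key
      _ ≤ (2 + 1 / Real.log lam) * (1 + Real.log N1) + lam ^ 2 / (2 * δ) * (1 + Real.log N1) := by
          linarith
      _ = _ := by ring
  · have hlow : ∀ i ∈ range (m + 1), 2 * n0 * lam ^ i / lam ≤
        ((min ⌈2 * n0 * lam ^ i⌉₊ N1 : ℕ) : ℝ) := by
      intro i hi
      rw [mem_range] at hi
      rw [Nat.cast_min]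
      refine le_min ?_ ?_
      · refine le_trans ?_ (Nat.le_ceil _)
        exact div_le_self (by positivity) hl1.le
      · rcases Nat.eq_zero_or_pos i with h0 | h0
        · rw [h0, pow_zero, mul_one]
          exact (div_le_self (by positivity) hl1.le).trans hN1R
        · have h3 := hmin (i - 1) (by omega)
          have h4 : 2 * n0 * lam ^ i / lam = 2 * n0 * lam ^ (i - 1) := by
            obtain ⟨k, rfl⟩ : ∃ k, i = k + 1 := ⟨i - 1, by omega⟩
            rw [Nat.add_sub_cancel, pow_succ]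
            field_simp
          rw [h4]
          exact h3.le
    have h1 : ∑ i ∈ range (m + 1), 1 / ((min ⌈2 * n0 * lam ^ i⌉₊ N1 : ℕ) : ℝ) ≤
        ∑ i ∈ range (m + 1), (lam / (2 * n0)) * (1 / lam) ^ i := by
      refine sum_le_sum fun i hi => ?_
      have h2 := hlow i hi
      have h3 : 0 < 2 * n0 * lam ^ i / lam := by positivity
      refine (one_div_le_one_div_of_le h3 h2).trans (le_of_eq ?_)
      rw [one_div_pow]
      field_simp
    refine h1.trans ?_
    rw [← mul_sum]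
    have h2 : ∑ i ∈ range (m + 1), (1 / lam) ^ i ≤ lam / δ := by
      have h3 : (1 / lam : ℝ) < 1 := by rw [div_lt_one hl0]; exact hl1
      rw [geom_sum_eq h3.ne]
      have h4 : ((1 / lam) ^ (m + 1) - 1) / (1 / lam - 1) =
          (1 - (1 / lam) ^ (m + 1)) * (lam / δ) := by
        have h5 : 1 / lam - 1 = -(δ / lam) := by
          rw [hlam]
          have : (1 : ℝ) + δ ≠ 0 := by linarith
          field_simp
          ring
        rw [h5]
        field_simp
        ring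
      rw [h4]
      have h5 : 0 ≤ (1 / lam) ^ (m + 1) := by positivity
      have h6 : 0 < lam / δ := by positivity
      nlinarith
    calc lam / (2 * n0) * ∑ i ∈ range (m + 1), (1 / lam) ^ i ≤ lam / (2 * n0) * (lam / δ) :=
          mul_le_mul_of_nonneg_left h2 (by positivity)
      _ = (lam ^ 2 / (2 * δ)) / n0 := by field_simp
      _ ≤ _ := by
          refine div_le_div_of_nonneg_right ?_ (by positivity)
          have : 0 < 2 + 1 / Real.log lam := by positivity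
          linarith
  · intro N hN hNN
    by_cases h1 : N1 ≤ N
    · have h2 : N = N1 := le_antisymm hNN h1
      have h3 : min ⌈2 * n0 * lam ^ m⌉₊ N1 = N1 := by
        refine min_eq_right ?_
        have : (N1 : ℝ) ≤ (⌈2 * n0 * lam ^ m⌉₊ : ℝ) := hm.trans (Nat.le_ceil _)
        exact_mod_cast this
      refine ⟨m, le_rfl, m, le_rfl, ?_, ?_, ?_⟩
      · show min ⌈2 * n0 * lam ^ m⌉₊ N1 ≤ N
        rw [h3]; exact h1
      · show N ≤ min ⌈2 * n0 * lam ^ m⌉₊ N1
        rw [h3]; exact hNN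
      · show ((min ⌈2 * n0 * lam ^ m⌉₊ N1 : ℕ) : ℝ) ≤
          (1 + δ) * ((min ⌈2 * n0 * lam ^ m⌉₊ N1 : ℕ) : ℝ) + 1
        have : (0 : ℝ) ≤ ((min ⌈2 * n0 * lam ^ m⌉₊ N1 : ℕ) : ℝ) := Nat.cast_nonneg _
        nlinarith
    · push Not at h1
      have hex2 : ∃ j : ℕ, N < min ⌈2 * n0 * lam ^ j⌉₊ N1 := by
        refine ⟨m, lt_min ?_ h1⟩
        have : (N : ℝ) < (⌈2 * n0 * lam ^ m⌉₊ : ℝ) := by
          have h2 : (N : ℝ) < N1 := by exact_mod_cast h1
          exact lt_of_lt_of_le h2 (hm.trans (Nat.le_ceil _))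
        exact_mod_cast this
      obtain ⟨j, hj, hjmin⟩ : ∃ j : ℕ, N < min ⌈2 * n0 * lam ^ j⌉₊ N1 ∧
          ∀ i < j, ¬ N < min ⌈2 * n0 * lam ^ i⌉₊ N1 := by
        classical
        exact ⟨Nat.find hex2, Nat.find_spec hex2, fun i hi => Nat.find_min hex2 hi⟩
      have hj0 : 0 < j := by
        rcases Nat.eq_zero_or_pos j with h0 | h0
        · exfalso
          rw [h0, pow_zero, mul_one] at hj
          have h2 : ⌈2 * (n0 : ℝ)⌉₊ = 2 * n0 := by
            have : (2 * (n0 : ℝ)) = ((2 * n0 : ℕ) : ℝ) := by push_cast; ring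
            rw [this, Nat.ceil_natCast]
          rw [h2] at hj
          have := lt_of_lt_of_le hj (min_le_left _ _)
          omega
        · exact h0
      have hjm : j ≤ m := by
        by_contra hcon
        push Not at hcon
        apply hjmin m hcon
        refine lt_min ?_ h1
        have : (N : ℝ) < (⌈2 * n0 * lam ^ m⌉₊ : ℝ) := by
          have h2 : (N : ℝ) < N1 := by exact_mod_cast h1
          exact lt_of_lt_of_le h2 (hm.trans (Nat.le_ceil _))
        exact_mod_cast this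
      refine ⟨j - 1, by omega, j, hjm, not_lt.1 (hjmin (j - 1) (by omega)), hj.le, ?_⟩
      have h2 : ((min ⌈2 * n0 * lam ^ j⌉₊ N1 : ℕ) : ℝ) ≤ 2 * n0 * lam ^ j + 1 := by
        refine le_trans (by exact_mod_cast min_le_left _ _) (Nat.ceil_lt_add_one (by positivity)).le
      have h3 : 2 * n0 * lam ^ (j - 1) ≤ ((min ⌈2 * n0 * lam ^ (j - 1)⌉₊ N1 : ℕ) : ℝ) := by
        rw [Nat.cast_min]
        exact le_min (Nat.le_ceil _) (hmin (j - 1) (by omega)).le
      have h4 : 2 * n0 * lam ^ j = lam * (2 * n0 * lam ^ (j - 1)) := by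
        obtain ⟨k, rfl⟩ : ∃ k, j = k + 1 := ⟨j - 1, by omega⟩
        rw [Nat.add_sub_cancel, pow_succ]
        ring
      rw [← hlam]
      calc ((min ⌈2 * n0 * lam ^ j⌉₊ N1 : ℕ) : ℝ) ≤ 2 * n0 * lam ^ j + 1 := h2
        _ = lam * (2 * n0 * lam ^ (j - 1)) + 1 := by rw [h4]
        _ ≤ _ := by
            have := mul_le_mul_of_nonneg_left h3 hl0.le
            linarith

/-- second moment -/
theorem moment (I s : Finset ℕ) (b : ℕ → ℕ → ℂ) (η : ℝ) (hη : 0 ≤ η) (hb : ∀ a n, ‖b a n‖ = 1)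
    (h : ∀ n ∈ s, ∀ n' ∈ s, n' < n →
      ‖∑ a ∈ I, b a n * (starRingEnd ℂ) (b a n')‖ ≤ η * I.card) :
    ∑ a ∈ I, ‖∑ n ∈ s, b a n‖ ^ 2 ≤ I.card * (s.card + η * (s.card : ℝ) ^ 2) := by
  have h1 : ((∑ a ∈ I, ‖∑ n ∈ s, b a n‖ ^ 2 : ℝ) : ℂ) =
      ∑ n ∈ s, ∑ n' ∈ s, ∑ a ∈ I, b a n * (starRingEnd ℂ) (b a n') := by
    have h2 : ∀ a, ((‖∑ n ∈ s, b a n‖ ^ 2 : ℝ) : ℂ) =
        ∑ n ∈ s, ∑ n' ∈ s, b a n * (starRingEnd ℂ) (b a n') := by
      intro a
      push_cast
      rw [← Complex.mul_conj', map_sum, sum_mul_sum]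
    push_cast
    have h3 : ∀ a, ((‖∑ n ∈ s, b a n‖ : ℂ)) ^ 2 =
        ∑ n ∈ s, ∑ n' ∈ s, b a n * (starRingEnd ℂ) (b a n') := by
      intro a
      rw [← h2 a]
      push_cast
      rfl
    simp only [h3]
    rw [sum_comm]
    refine sum_congr rfl fun n _ => ?_
    rw [sum_comm]
  have h2 : ∑ a ∈ I, ‖∑ n ∈ s, b a n‖ ^ 2 =
      ‖∑ n ∈ s, ∑ n' ∈ s, ∑ a ∈ I, b a n * (starRingEnd ℂ) (b a n')‖ := by
    rw [← h1, Complex.norm_real, Real.norm_eq_abs, abs_of_nonneg]
    exact sum_nonneg fun a _ => sq_nonneg _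
  rw [h2]
  have h3 : ∀ n ∈ s, ∀ n' ∈ s, ‖∑ a ∈ I, b a n * (starRingEnd ℂ) (b a n')‖ ≤
      (if n = n' then (I.card : ℝ) else 0) + η * I.card := by
    intro n hn n' hn'
    rcases lt_trichotomy n n' with h4 | h4 | h4
    · rw [if_neg h4.ne, zero_add]
      have h5 := h n' hn' n hn h4
      have h6 : ∑ a ∈ I, b a n * (starRingEnd ℂ) (b a n') =
          (starRingEnd ℂ) (∑ a ∈ I, b a n' * (starRingEnd ℂ) (b a n)) := by
        rw [map_sum]
        refine sum_congr rfl fun a _ => ?_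
        rw [map_mul, Complex.conj_conj, mul_comm]
      rw [h6, RCLike.norm_conj]
      exact h5
    · rw [if_pos h4, ← h4]
      have h5 : ∀ a ∈ I, ‖b a n * (starRingEnd ℂ) (b a n)‖ ≤ 1 := by
        intro a _
        rw [norm_mul, RCLike.norm_conj, hb, one_mul]
      have h6 := (norm_sum_le _ _).trans (sum_le_card_nsmul _ _ _ h5)
      rw [nsmul_eq_mul, mul_one] at h6
      have : 0 ≤ η * I.card := by positivity
      linarith
    · rw [if_neg h4.ne', zero_add]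
      exact h n hn n' hn' h4
  refine (norm_sum_le _ _).trans ?_
  have h4 : ∀ n ∈ s, ‖∑ n' ∈ s, ∑ a ∈ I, b a n * (starRingEnd ℂ) (b a n')‖ ≤
      I.card + s.card * (η * I.card) := by
    intro n hn
    refine (norm_sum_le _ _).trans ((sum_le_sum fun n' hn' => h3 n hn n' hn').trans (le_of_eq ?_))
    rw [sum_add_distrib, sum_ite_eq, if_pos hn, sum_const, nsmul_eq_mul]
  refine (sum_le_sum h4).trans (le_of_eq ?_)
  rw [sum_const, nsmul_eq_mul]
  ring

/-- Markov's inequality -/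
theorem markov (I : Finset ℕ) (f : ℕ → ℝ) (D : ℝ) (hD : 0 < D) :
    ((I.filter (fun a => D < f a)).card : ℝ) * D ^ 2 ≤ ∑ a ∈ I, f a ^ 2 := by
  calc ((I.filter (fun a => D < f a)).card : ℝ) * D ^ 2 =
        ∑ a ∈ I.filter (fun a => D < f a), D ^ 2 := by rw [sum_const, nsmul_eq_mul]
    _ ≤ ∑ a ∈ I.filter (fun a => D < f a), f a ^ 2 := by
        refine sum_le_sum fun a ha => ?_
        rw [mem_filter] at ha
        exact pow_le_pow_left₀ hD.le ha.2.le 2
    _ ≤ _ := sum_le_sum_of_subset_of_nonneg (filter_subset _ _) fun a _ _ => sq_nonneg _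

end Pool.Agent.N507.KO
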